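import Pool.Agent.Helper13.HE.St

/-!
Module FNB of project HE: numerical inequalities.
-/

set_option autoImplicit false

open Module Classical
open scoped LinearAlgebra.Projectivization

namespace Pool.Agent.Helper7.HE

open Pool.Agent.Helper13.HE Pool.Agent.Helper53.PB

private theorem fnb_large (x q a b : ℝ) (hx : 264 ≤ x) (hq : 33554432 ≤ q)
    (h3 : x ^ 3 ≤ 56 / 100 * q) (ha : a = 3 * x - 39 / 10) (hb : b = 3 * x - 69 / 10) :
    0 < b ∧ 3 * x < q ∧ 6 * x / q ^ 2 + 3 / q ^ 3 ≤ 1 / 10 ∧ a * (a - 1) ≤ q - 3 * x ∧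
    101 / 100 * (6 / 10 * a ^ 2 / q + a ^ 2 / 3 + b ^ 3 / 24 + a ^ 6 / (5040 * q) +
      a ^ 8 / (362880 * q ^ 3)) < 7 / 8 * (q - 3 * x) ∧
    302 / 100 * (b ^ 5 / 120) ≤ q * (q - 3 * x) / 8 := by
  have hx0 : 0 < x := by linarith
  have hq0 : 0 < q := by linarith
  have ha0 : 0 < a := by linarith
  have hb0 : 0 < b := by linarith
  have hax : a ≤ 3 * x := by linarith
  have hbx : b ≤ 3 * x := by linarith
  have e2 : x ^ 2 ≤ 2122 / 1000000 * q := by
    have h1 : x ^ 2 * 264 ≤ x ^ 3 := by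
      have := mul_le_mul_of_nonneg_left hx (sq_nonneg x)
      calc x ^ 2 * 264 ≤ x ^ 2 * x := this
        _ = x ^ 3 := by ring
    nlinarith
  have e1 : 3 * x ≤ 3 / 100000 * q := by
    have h1 : x * 264 ≤ x ^ 2 := by nlinarith
    nlinarith
  have a2 : a ^ 2 ≤ 191 / 10000 * q := by
    have h1 : a ^ 2 ≤ (3 * x) ^ 2 := pow_le_pow_left₀ ha0.le hax 2
    nlinarith
  have b3 : b ^ 3 ≤ 1512 / 100 * q := by
    have h1 : b ^ 3 ≤ (3 * x) ^ 3 := pow_le_pow_left₀ hb0.le hbx 3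
    have h2 : (3 * x) ^ 3 = 27 * x ^ 3 := by ring
    linarith
  have a6 : a ^ 6 ≤ 2287 / 10 * q ^ 2 := by
    have h1 : a ^ 6 ≤ (3 * x) ^ 6 := pow_le_pow_left₀ ha0.le hax 6
    have h2 : (3 * x) ^ 6 = 729 * (x ^ 3) ^ 2 := by ring
    have h4 : (x ^ 3) ^ 2 ≤ (56 / 100 * q) ^ 2 := pow_le_pow_left₀ (by positivity) h3 2
    have h5 : (56 / 100 * q) ^ 2 = 3136 / 10000 * q ^ 2 := by ring
    have h6 : 0 < q ^ 2 := by positivity
    nlinarith
  have a8 : a ^ 8 ≤ 5 * q ^ 3 := by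
    have h1 : a ^ 8 = a ^ 6 * a ^ 2 := by ring
    have h2 : a ^ 6 * a ^ 2 ≤ (2287 / 10 * q ^ 2) * (191 / 10000 * q) :=
      mul_le_mul a6 a2 (by positivity) (by positivity)
    have h4 : (2287 / 10 * q ^ 2) * (191 / 10000 * q) = 436817 / 100000 * q ^ 3 := by ring
    have h5 : 0 < q ^ 3 := by positivity
    nlinarith
  have b5 : b ^ 5 ≤ 289 / 1000 * q ^ 2 := by
    have h1 : b ^ 5 ≤ (3 * x) ^ 5 := pow_le_pow_left₀ hb0.le hbx 5
    have h2 : (3 * x) ^ 5 = 243 * (x ^ 3 * x ^ 2) := by ring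
    have h4 : x ^ 3 * x ^ 2 ≤ (56 / 100 * q) * (2122 / 1000000 * q) :=
      mul_le_mul h3 e2 (by positivity) (by positivity)
    have h5 : (56 / 100 * q) * (2122 / 1000000 * q) = 118832 / 100000000 * q ^ 2 := by ring
    have h6 : 0 < q ^ 2 := by positivity
    nlinarith
  refine ⟨hb0, by linarith, ?_, ?_, ?_, ?_⟩
  · have h1 : 6 * x / q ^ 2 ≤ 1 / 100 := by
      rw [div_le_iff₀ (by positivity)]
      nlinarith
    have h2 : 3 / q ^ 3 ≤ 1 / 100 := by
      rw [div_le_iff₀ (by positivity)]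
      have h4 : q ≤ q ^ 3 := by
        have : 1 ≤ q ^ 2 := by nlinarith
        calc q = q * 1 := by ring
          _ ≤ q * q ^ 2 := mul_le_mul_of_nonneg_left this hq0.le
          _ = q ^ 3 := by ring
      linarith
    linarith
  · nlinarith
  · have h1 : 6 / 10 * a ^ 2 / q ≤ 115 / 10000 := by
      rw [div_le_iff₀ hq0]
      linarith
    have h2 : a ^ 6 / (5040 * q) ≤ 454 / 10000 * q := by
      rw [div_le_iff₀ (by positivity)]
      nlinarith
    have h4 : a ^ 8 / (362880 * q ^ 3) ≤ 1 / 10000 := by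
      rw [div_le_iff₀ (by positivity)]
      have : 0 < q ^ 3 := by positivity
      linarith
    linarith
  · have h6 : 0 < q ^ 2 := by positivity
    nlinarith

theorem hFNB : StFNB := by
  intro h hh x q a b hx hq ha hb
  by_cases h25 : 25 ≤ h
  · have e1 : (264 : ℝ) ≤ x := by
      have h1 : (5 / 4 : ℝ) ^ 25 ≤ (5 / 4 : ℝ) ^ h := pow_le_pow_right₀ (by norm_num) h25
      rw [hx]
      refine le_trans ?_ h1
      norm_num
    have e2 : (33554432 : ℝ) ≤ q := by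
      have h1 : (2 : ℝ) ^ 25 ≤ (2 : ℝ) ^ h := pow_le_pow_right₀ (by norm_num) h25
      rw [hq]
      refine le_trans ?_ h1
      norm_num
    have e3 : x ^ 3 ≤ 56 / 100 * q := by
      have h1 : x ^ 3 = (125 / 128 : ℝ) ^ h * q := by
        rw [hx, hq, ← pow_mul, mul_comm h 3, pow_mul, ← mul_pow]
        norm_num
      have h2 : (125 / 128 : ℝ) ^ h ≤ (125 / 128 : ℝ) ^ 25 :=
        pow_le_pow_of_le_one (by norm_num) (by norm_num) h25
      have h3 : (125 / 128 : ℝ) ^ 25 ≤ 56 / 100 := by norm_num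
      rw [h1]
      exact mul_le_mul_of_nonneg_right (h2.trans h3) (by linarith)
    exact fnb_large x q a b e1 e2 e3 ha hb
  · push Not at h25
    subst ha hb hx hq
    interval_cases h <;> norm_num

end Pool.Agent.Helper7.HE
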